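import Mathlib

/-!
# The chord set of the sine sum `g_n`

`H(g_n) = [0,1] \ ⋃_{k=1}^n (k/(n+1), k/n)` for every `n ≥ 1`.

With `u = 2π(x - ℓ/2)` and `v = πℓ` one has
`(g_n(x) - g_n(x-ℓ)) (cos v - cos u) = sin((n+1)v) cos(nu) - sin(nv) cos((n+1)u) - sin v`.
-/

set_option autoImplicit false

namespace Pool.Agent.Results.MP_174dab_an.ChordSet

open Real

/-- `g_n(x) = ∑_{k=1}^n sin(2πkx)`. -/
noncomputable def g (n : ℕ) (x : ℝ) : ℝ := ∑ k ∈ Finset.Icc 1 n, Real.sin (2 * π * k * x)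

/-- The chord set of a function on `[0,1]`. -/
def chordSet (f : ℝ → ℝ) : Set ℝ :=
  {ℓ | ℓ ∈ Set.Icc (0 : ℝ) 1 ∧ ∃ x ∈ Set.Icc ℓ 1, f (x - ℓ) = f x}

/-- `V_n = ⋃_{k=1}^n (k/(n+1), k/n)`. -/
def V (n : ℕ) : Set ℝ := ⋃ k ∈ Finset.Icc 1 n, Set.Ioo ((k : ℝ) / (n + 1)) ((k : ℝ) / n)

/-- The difference `g_n(x) - g_n(x-ℓ)` as a sum. -/
theorem diff_eq (n : ℕ) (x ℓ : ℝ) :
    g n x - g n (x - ℓ) =
      ∑ k ∈ Finset.Icc 1 n, 2 * Real.cos (k * (2 * π * (x - ℓ / 2))) * Real.sin (k * (π * ℓ)) := by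
  unfold g
  rw [← Finset.sum_sub_distrib]
  refine Finset.sum_congr rfl fun k _ => ?_
  rw [Real.sin_sub_sin]
  have h1 : (2 * π * k * x - 2 * π * k * (x - ℓ)) / 2 = k * (π * ℓ) := by ring
  have h2 : (2 * π * k * x + 2 * π * k * (x - ℓ)) / 2 = k * (2 * π * (x - ℓ / 2)) := by ring
  rw [h1, h2]
  ring

theorem telescope (n : ℕ) (u v : ℝ) :
    (∑ k ∈ Finset.Icc 1 n, 2 * Real.cos (k * u) * Real.sin (k * v)) * (Real.cos v - Real.cos u) =
      Real.cos (n * u) * Real.sin ((n + 1) * v) - Real.sin (n * v) * Real.cos ((n + 1) * u)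
        - Real.sin v := by
  induction n with
  | zero => simp
  | succ n ih =>
    rw [Finset.sum_Icc_succ_top (by omega), add_mul, ih]
    push_cast
    have e1 : ((n : ℝ) + 1 + 1) * v = (n + 1) * v + v := by ring
    have e2 : ((n : ℝ) + 1 + 1) * u = (n + 1) * u + u := by ring
    have e3 : (n : ℝ) * v = (n + 1) * v - v := by ring
    have e4 : (n : ℝ) * u = (n + 1) * u - u := by ring
    rw [e1, e2, e3, e4, Real.sin_add, Real.cos_add, Real.sin_sub, Real.cos_sub]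
    ring

theorem g_zero (n : ℕ) : g n 0 = 0 := by simp [g]

theorem g_one (n : ℕ) : g n 1 = 0 := by
  unfold g
  refine Finset.sum_eq_zero fun k _ => ?_
  have : 2 * π * (k : ℝ) * 1 = ((2 * k : ℕ) : ℝ) * π := by push_cast; ring
  rw [this, Real.sin_nat_mul_pi]

theorem g_mul_sin (n : ℕ) (ℓ : ℝ) :
    g n ℓ * Real.sin (π * ℓ) = Real.sin (n * (π * ℓ)) * Real.sin ((n + 1) * (π * ℓ)) := by
  unfold g
  induction n with
  | zero => simp
  | succ n ih =>
    rw [Finset.sum_Icc_succ_top (by omega), add_mul, ih]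
    push_cast
    have e1 : 2 * π * ((n : ℝ) + 1) * ℓ = 2 * ((n + 1) * (π * ℓ)) := by ring
    have e2 : ((n : ℝ) + 1 + 1) * (π * ℓ) = (n + 1) * (π * ℓ) + π * ℓ := by ring
    have e3 : (n : ℝ) * (π * ℓ) = (n + 1) * (π * ℓ) - π * ℓ := by ring
    rw [e1, e2, e3, Real.sin_two_mul, Real.sin_add, Real.sin_sub]
    ring

theorem diff_at_left (n : ℕ) (ℓ : ℝ) : g n ℓ - g n (ℓ - ℓ) = g n ℓ := by
  rw [sub_self, g_zero, sub_zero]

theorem g_one_sub (n : ℕ) (ℓ : ℝ) : g n (1 - ℓ) = - g n ℓ := by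
  unfold g
  rw [← Finset.sum_neg_distrib]
  refine Finset.sum_congr rfl fun k _ => ?_
  have : 2 * π * (k : ℝ) * (1 - ℓ) = (k : ℕ) * (2 * π) - 2 * π * k * ℓ := by ring
  rw [this, Real.sin_nat_mul_two_pi_sub]

/-- no chord when `ℓ ∈ (k/(n+1), k/n)` -/
theorem no_chord {n k : ℕ} (hn : 1 ≤ n) (hk1 : 1 ≤ k) (hkn : k ≤ n) {ℓ : ℝ}
    (h1 : (k : ℝ) / (n + 1) < ℓ) (h2 : ℓ < (k : ℝ) / n) {x : ℝ} (hx1 : ℓ ≤ x) (hx2 : x ≤ 1) :
    g n x - g n (x - ℓ) ≠ 0 := by
  have hn0 : (0 : ℝ) < n := by exact_mod_cast hn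
  have hk0 : (0 : ℝ) < k := by exact_mod_cast hk1
  have hkn' : (k : ℝ) ≤ n := by exact_mod_cast hkn
  rw [div_lt_iff₀ (by positivity)] at h1
  rw [lt_div_iff₀ hn0] at h2
  have hℓ0 : 0 < ℓ := by
    by_contra h
    push Not at h
    nlinarith
  have hℓ1 : ℓ < 1 := by
    by_contra h
    push Not at h
    nlinarith
  set a : ℝ := π * (k - n * ℓ) with ha
  set b : ℝ := π * ((n + 1) * ℓ - k) with hb
  have hπ := Real.pi_pos
  have ha0 : 0 < a := by apply mul_pos hπ; nlinarith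
  have hb0 : 0 < b := by apply mul_pos hπ; nlinarith
  have ha1 : a < π := by
    rw [ha]
    have : (k : ℝ) - n * ℓ < 1 := by nlinarith
    nlinarith
  have hb1 : b < π := by
    rw [hb]
    have : ((n : ℝ) + 1) * ℓ - k < 1 := by nlinarith
    nlinarith
  have hab : a + b = π * ℓ := by rw [ha, hb]; ring
  have hsa : 0 < Real.sin a := Real.sin_pos_of_pos_of_lt_pi ha0 ha1
  have hsb : 0 < Real.sin b := Real.sin_pos_of_pos_of_lt_pi hb0 hb1
  have hv0 : 0 < π * ℓ := by positivity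
  have hv1 : π * ℓ < π := by nlinarith
  have hsv : 0 < Real.sin (π * ℓ) := Real.sin_pos_of_pos_of_lt_pi hv0 hv1
  have hsn : Real.sin (n * (π * ℓ)) = -((-1) ^ k * Real.sin a) := by
    have : (n : ℝ) * (π * ℓ) = k * π - a := by rw [ha]; ring
    rw [this, Real.sin_sub, Real.cos_nat_mul_pi, Real.sin_nat_mul_pi]
    ring
  have hsn1 : Real.sin ((n + 1) * (π * ℓ)) = (-1) ^ k * Real.sin b := by
    have : ((n : ℝ) + 1) * (π * ℓ) = b + k * π := by rw [hb]; ring
    rw [this, Real.sin_add, Real.cos_nat_mul_pi, Real.sin_nat_mul_pi]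
    ring
  have hsign : ((-1 : ℝ) ^ k) * (-1) ^ k = 1 := by
    rw [← mul_pow]; simp
  have hg : g n ℓ ≠ 0 := by
    intro h
    have := g_mul_sin n ℓ
    rw [h, hsn, hsn1, zero_mul] at this
    have h3 : -(((-1 : ℝ) ^ k) * (-1) ^ k) * (Real.sin a * Real.sin b) = 0 := by
      rw [this]; ring
    rw [hsign] at h3
    have := mul_pos hsa hsb
    linarith
  rcases eq_or_lt_of_le hx1 with h | hx1'
  · rw [← h, diff_at_left]; exact hg
  rcases eq_or_lt_of_le hx2 with h | hx2'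
  · rw [h, g_one, g_one_sub]; simpa using hg
  -- interior
  intro h0
  rw [diff_eq] at h0
  have ht := telescope n (2 * π * (x - ℓ / 2)) (π * ℓ)
  rw [h0, zero_mul, hsn, hsn1] at ht
  set u : ℝ := 2 * π * (x - ℓ / 2) with hu
  have hcos : Real.cos u < Real.cos (π * ℓ) := by
    have hu1 : π * ℓ < u := by rw [hu]; nlinarith
    have hu2 : u < 2 * π - π * ℓ := by rw [hu]; nlinarith
    by_cases hup : u ≤ π
    · exact Real.cos_lt_cos_of_nonneg_of_le_pi hv0.le hup hu1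
    · push Not at hup
      have : Real.cos u = Real.cos (2 * π - u) := by rw [Real.cos_two_pi_sub]
      rw [this]
      exact Real.cos_lt_cos_of_nonneg_of_le_pi hv0.le (by linarith) (by linarith)
  -- set C
  have hkey : Real.sin (π * ℓ) ^ 2 =
      Real.sin a ^ 2 + Real.sin b ^ 2 + 2 * Real.sin a * Real.sin b * Real.cos (π * ℓ) := by
    rw [← hab, Real.sin_add, Real.cos_add]
    have e1 := Real.sin_sq_add_cos_sq a
    have e2 := Real.sin_sq_add_cos_sq b
    have e3 : Real.cos a ^ 2 = 1 - Real.sin a ^ 2 := by linarith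
    have e4 : Real.cos b ^ 2 = 1 - Real.sin b ^ 2 := by linarith
    ring_nf
    rw [e3, e4]
    ring
  have hval : Real.sin (π * ℓ) ^ 2 =
      (Real.sin b * Real.cos (n * u) + Real.sin a * Real.cos ((n + 1) * u)) ^ 2 := by
    have : Real.sin (π * ℓ) = (-1) ^ k *
        (Real.sin b * Real.cos (n * u) + Real.sin a * Real.cos ((n + 1) * u)) := by
      linarith
    rw [this, mul_pow, ← pow_mul, mul_comm k 2, pow_mul]
    norm_num
  have hbound : (Real.sin b * Real.cos (n * u) + Real.sin a * Real.cos ((n + 1) * u)) ^ 2 ≤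
      Real.sin a ^ 2 + Real.sin b ^ 2 + 2 * Real.sin a * Real.sin b * Real.cos u := by
    have hc : Real.cos u = Real.cos ((n + 1) * u) * Real.cos (n * u) +
        Real.sin ((n + 1) * u) * Real.sin (n * u) := by
      rw [← Real.cos_sub]; congr 1; ring
    have e1 := Real.sin_sq_add_cos_sq (n * u)
    have e2 := Real.sin_sq_add_cos_sq ((n + 1) * u)
    have hs := sq_nonneg (Real.sin b * Real.sin (n * u) + Real.sin a * Real.sin ((n + 1) * u))
    rw [hc]
    nlinarith [hs, e1, e2, mul_comm (Real.sin b) (Real.sin a),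
      congrArg (fun t => t * Real.sin b ^ 2) e1, congrArg (fun t => t * Real.sin a ^ 2) e2]
  have hlt : 2 * Real.sin a * Real.sin b * Real.cos u <
      2 * Real.sin a * Real.sin b * Real.cos (π * ℓ) :=
    mul_lt_mul_of_pos_left hcos (by positivity)
  linarith

/-- chord exists when `g_n(ℓ) ≥ 0` and `0 < ℓ < 1`. -/
theorem chord_of_nonneg {n : ℕ} (hn : 1 ≤ n) {ℓ : ℝ} (h0 : 0 < ℓ) (h1 : ℓ < 1)
    (hg : 0 ≤ g n ℓ) : ∃ x ∈ Set.Icc ℓ 1, g n (x - ℓ) = g n x := by
  -- antiderivative of the difference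
  let F : ℝ → ℝ := fun x => ∑ k ∈ Finset.Icc 1 n,
    (1 / (π * k)) * Real.sin (k * (2 * π * (x - ℓ / 2))) * Real.sin (k * (π * ℓ))
  have hderiv : ∀ x, HasDerivAt F (g n x - g n (x - ℓ)) x := by
    intro x
    rw [diff_eq]
    apply HasDerivAt.fun_sum
    intro k hk
    have hk0 : (0 : ℝ) < k := by
      have := (Finset.mem_Icc.1 hk).1
      exact_mod_cast this
    have hd : HasDerivAt (fun x : ℝ => (k : ℝ) * (2 * π * (x - ℓ / 2))) (k * (2 * π)) x := by
      have := (((hasDerivAt_id x).sub_const (ℓ / 2)).const_mul (2 * π)).const_mul (k : ℝ)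
      simpa using this
    have h2 := ((hd.sin).const_mul (1 / (π * k))).mul_const (Real.sin (k * (π * ℓ)))
    have hπ := Real.pi_pos
    have h3 : 1 / (π * (k : ℝ)) * (Real.cos (k * (2 * π * (x - ℓ / 2))) * (k * (2 * π))) =
      2 * Real.cos (k * (2 * π * (x - ℓ / 2))) := by
      field_simp
    rw [h3] at h2
    exact h2
  have hF : F 1 < F ℓ := by
    have e1 : F 1 = - ∑ k ∈ Finset.Icc 1 n, (1 / (π * k)) * Real.sin (k * (π * ℓ)) ^ 2 := by
      simp only [F]
      rw [← Finset.sum_neg_distrib]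
      refine Finset.sum_congr rfl fun k _ => ?_
      have : (k : ℝ) * (2 * π * (1 - ℓ / 2)) = (k : ℕ) * (2 * π) - k * (π * ℓ) := by ring
      rw [this, Real.sin_nat_mul_two_pi_sub]
      ring
    have e2 : F ℓ = ∑ k ∈ Finset.Icc 1 n, (1 / (π * k)) * Real.sin (k * (π * ℓ)) ^ 2 := by
      simp only [F]
      refine Finset.sum_congr rfl fun k _ => ?_
      have : (k : ℝ) * (2 * π * (ℓ - ℓ / 2)) = k * (π * ℓ) := by ring
      rw [this]
      ring
    have hpos : 0 < ∑ k ∈ Finset.Icc 1 n, (1 / (π * k)) * Real.sin (k * (π * ℓ)) ^ 2 := by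
      apply Finset.sum_pos'
      · intro k _
        have := Real.pi_pos
        positivity
      · refine ⟨1, Finset.mem_Icc.2 ⟨le_refl _, hn⟩, ?_⟩
        have hs : 0 < Real.sin (π * ℓ) := by
          apply Real.sin_pos_of_pos_of_lt_pi
          · have := Real.pi_pos; positivity
          · have := Real.pi_pos; nlinarith
        have := Real.pi_pos
        simp only [Nat.cast_one, one_mul, mul_one]
        positivity
    rw [e1, e2]
    linarith
  have hcont : Continuous fun x => g n x - g n (x - ℓ) := by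
    unfold g
    fun_prop
  obtain ⟨c, hc, hc'⟩ := exists_hasDerivAt_eq_slope F (fun x => g n x - g n (x - ℓ)) h1
    (fun x _ => (hderiv x).continuousAt.continuousWithinAt) (fun x _ => hderiv x)
  have hneg : g n c - g n (c - ℓ) < 0 := by
    rw [hc']
    apply div_neg_of_neg_of_pos
    · linarith
    · linarith
  have hz : (0 : ℝ) ∈ (fun x => g n x - g n (x - ℓ)) '' Set.Icc ℓ c := by
    apply intermediate_value_Icc' hc.1.le hcont.continuousOn
    constructor
    · exact hneg.le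
    · show 0 ≤ g n ℓ - g n (ℓ - ℓ)
      rw [diff_at_left]; exact hg
  obtain ⟨x, hx, hx0⟩ := hz
  refine ⟨x, ⟨hx.1, hx.2.trans hc.2.le⟩, ?_⟩
  have hx0' : g n x - g n (x - ℓ) = 0 := hx0
  linarith

theorem main (n : ℕ) (hn : 1 ≤ n) : chordSet (g n) = Set.Icc 0 1 \ V n := by
  have hn0 : (0 : ℝ) < n := by exact_mod_cast hn
  ext ℓ
  constructor
  · rintro ⟨hℓ, x, hx, hxe⟩
    refine ⟨hℓ, ?_⟩
    intro hV
    simp only [V, Set.mem_iUnion, Finset.mem_Icc, exists_prop] at hV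
    obtain ⟨k, hk, hk'⟩ := hV
    exact no_chord hn hk.1 hk.2 hk'.1 hk'.2 hx.1 hx.2 (by linarith)
  · rintro ⟨hℓ, hV⟩
    refine ⟨hℓ, ?_⟩
    rcases eq_or_lt_of_le hℓ.1 with h | h0
    · exact ⟨0, ⟨by rw [← h], by norm_num⟩, by rw [← h]; simp⟩
    rcases eq_or_lt_of_le hℓ.2 with h | h1
    · exact ⟨1, ⟨by rw [h], le_refl _⟩, by rw [h]; simp [g_zero, g_one]⟩
    apply chord_of_nonneg hn h0 h1
    -- sign of g_n ℓ
    have hπ := Real.pi_pos
    have hsv : 0 < Real.sin (π * ℓ) :=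
      Real.sin_pos_of_pos_of_lt_pi (by positivity) (by nlinarith)
    have hmul := g_mul_sin n ℓ
    -- k = floor (n ℓ)
    set k : ℕ := ⌊(n : ℝ) * ℓ⌋₊ with hk
    have hk1 : (k : ℝ) ≤ n * ℓ := Nat.floor_le (by positivity)
    have hk2 : (n : ℝ) * ℓ < k + 1 := Nat.lt_floor_add_one _
    have hkn : k < n := by
      have : (k : ℝ) < n := by nlinarith
      exact_mod_cast this
    have hk3 : ((n : ℝ) + 1) * ℓ ≤ k + 1 := by
      by_contra hcon
      push Not at hcon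
      apply hV
      simp only [V, Set.mem_iUnion, Finset.mem_Icc, exists_prop]
      refine ⟨k + 1, ⟨by omega, by omega⟩, ?_, ?_⟩
      · rw [div_lt_iff₀ (by positivity)]
        push_cast
        nlinarith
      · rw [lt_div_iff₀ hn0]
        push_cast
        nlinarith
    have hp1 : 0 ≤ (-1 : ℝ) ^ k * Real.sin (n * (π * ℓ)) := by
      have e : (n : ℝ) * (π * ℓ) = π * (n * ℓ - k) + k * π := by ring
      rw [e, Real.sin_add, Real.cos_nat_mul_pi, Real.sin_nat_mul_pi]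
      have hs : 0 ≤ Real.sin (π * (n * ℓ - k)) :=
        Real.sin_nonneg_of_nonneg_of_le_pi (by nlinarith) (by nlinarith)
      have h2 : ((-1 : ℝ) ^ k) * (-1) ^ k = 1 := by rw [← mul_pow]; simp
      have : (-1 : ℝ) ^ k * (Real.sin (π * (n * ℓ - k)) * (-1) ^ k +
          Real.cos (π * (n * ℓ - k)) * 0) = ((-1 : ℝ) ^ k * (-1) ^ k) *
            Real.sin (π * (n * ℓ - k)) := by ring
      rw [this, h2, one_mul]
      exact hs
    have hp2 : 0 ≤ (-1 : ℝ) ^ k * Real.sin ((n + 1) * (π * ℓ)) := by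
      have e : ((n : ℝ) + 1) * (π * ℓ) = π * ((n + 1) * ℓ - k) + k * π := by ring
      rw [e, Real.sin_add, Real.cos_nat_mul_pi, Real.sin_nat_mul_pi]
      have hs : 0 ≤ Real.sin (π * ((n + 1) * ℓ - k)) :=
        Real.sin_nonneg_of_nonneg_of_le_pi (by nlinarith) (by nlinarith)
      have h2 : ((-1 : ℝ) ^ k) * (-1) ^ k = 1 := by rw [← mul_pow]; simp
      have : (-1 : ℝ) ^ k * (Real.sin (π * ((n + 1) * ℓ - k)) * (-1) ^ k +
          Real.cos (π * ((n + 1) * ℓ - k)) * 0) = ((-1 : ℝ) ^ k * (-1) ^ k) *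
            Real.sin (π * ((n + 1) * ℓ - k)) := by ring
      rw [this, h2, one_mul]
      exact hs
    have hp : 0 ≤ Real.sin (n * (π * ℓ)) * Real.sin ((n + 1) * (π * ℓ)) := by
      have h2 : ((-1 : ℝ) ^ k) * (-1) ^ k = 1 := by rw [← mul_pow]; simp
      have h3 := mul_nonneg hp1 hp2
      have : (-1 : ℝ) ^ k * Real.sin (n * (π * ℓ)) * ((-1) ^ k * Real.sin ((n + 1) * (π * ℓ))) =
        ((-1 : ℝ) ^ k * (-1) ^ k) * (Real.sin (n * (π * ℓ)) * Real.sin ((n + 1) * (π * ℓ))) := by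
        ring
      rwa [this, h2, one_mul] at h3
    rw [← hmul] at hp
    exact nonneg_of_mul_nonneg_left hp hsv

theorem result (n : ℕ) (hn : 1 ≤ n) :
    chordSet (g n) = Set.Icc 0 1 \ V n ∧
      Set.Ici 0 \ chordSet (g n) = V n ∪ Set.Ioi 1 := by
  refine ⟨main n hn, ?_⟩
  rw [main n hn]
  have hn0 : (0 : ℝ) < n := by exact_mod_cast hn
  ext ℓ
  simp only [Set.mem_sdiff, Set.mem_Ici, Set.mem_Icc, Set.mem_union, Set.mem_Ioi, not_and, not_not]
  constructor
  · rintro ⟨h1, h2⟩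
    by_cases h : ℓ ≤ 1
    · exact Or.inl (h2 ⟨h1, h⟩)
    · exact Or.inr (not_le.1 h)
  · rintro (h | h)
    · have h' := h
      simp only [V, Set.mem_iUnion, Finset.mem_Icc, exists_prop] at h'
      obtain ⟨k, hk, hk'⟩ := h'
      refine ⟨?_, fun _ => h⟩
      have := hk'.1
      have : (0 : ℝ) ≤ (k : ℝ) / (n + 1) := by positivity
      linarith
    · exact ⟨by linarith, fun h' => by linarith [h'.2]⟩

end Pool.Agent.Results.MP_174dab_an.ChordSet
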